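import Pool.Agent.X278.NC.Main

/-!
# MP_dbb1e7_al, Q1: disproof

For every field `K` there is a finitely generated central `K`-algebra `A ≠ K` in which all proper
centralizers are commutative and none of them is Noetherian.
-/

set_option autoImplicit false

namespace Pool.Agent.Results.MP_dbb1e7_al.NoNoetherianCentralizer

universe u

/-- For every field `K` there is a finitely generated `K`-algebra `A` whose centre is `K` (the
least subalgebra `⊥`) and different from `A`, such that the centralizer of every non-central
element is commutative and is not a Noetherian ring. -/
theorem result (K : Type u) [Field K] : ∃ (A : Type u) (_ : Ring A) (_ : Algebra K A),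
    Algebra.FiniteType K A ∧ Subalgebra.center K A = ⊥ ∧ Subalgebra.center K A ≠ ⊤ ∧
    ∀ a : A, a ∉ Subalgebra.center K A →
      (∀ b ∈ Subalgebra.centralizer K {a}, ∀ c ∈ Subalgebra.centralizer K {a}, b * c = c * b) ∧
      ¬ IsNoetherianRing (Subalgebra.centralizer K {a}) :=
  Pool.Agent.X278.NC.main K

end Pool.Agent.Results.MP_dbb1e7_al.NoNoetherianCentralizer
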